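import Pool.Agent.Helper923.HMertens

set_option autoImplicit false

namespace TH267.RS

open Finset
open Pool.Agent.Helper923.HMertens (PP)

/-- the reciprocal sum of the primes up to `N` -/
noncomputable def LL (N : ℕ) : ℝ := ∑ p ∈ PP N, (1 : ℝ) / p

theorem LL_mertens : ∃ C : ℝ, 0 ≤ C ∧ ∀ N : ℕ, 2 ≤ N →
    |LL N - Real.log (Real.log N)| ≤ C := by
  obtain ⟨C, hC0, hC⟩ := Pool.Agent.Helper923.HMertens.mertens_ratio
  have hl2 : 0 < Real.log 2 := Real.log_pos (by norm_num)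
  refine ⟨C / Real.log 2 + |Real.log (Real.log 2)| + 1 / 2, by positivity, fun x hx => ?_⟩
  have h1 := abs_le.1 (hC 2 x le_rfl hx)
  have h2 : PP x = insert 2 ((Ioc 2 x).filter Nat.Prime) := by
    ext p
    simp only [mem_filter, mem_Icc, mem_insert, mem_Ioc]
    constructor
    · rintro ⟨⟨h3, h4⟩, h5⟩
      rcases Nat.lt_or_ge 2 p with h | h
      · exact Or.inr ⟨⟨h, h4⟩, h5⟩
      · exact Or.inl (le_antisymm h h5.two_le)
    · rintro (rfl | ⟨⟨h3, h4⟩, h5⟩)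
      · exact ⟨⟨by norm_num, hx⟩, Nat.prime_two⟩
      · exact ⟨⟨by omega, h4⟩, h5⟩
  have h3 : (2 : ℕ) ∉ (Ioc 2 x).filter Nat.Prime := by simp
  unfold LL
  rw [h2, sum_insert h3]
  have hlx : 0 < Real.log x := Real.log_pos (by exact_mod_cast (by omega : 1 < x))
  rw [Nat.cast_ofNat, Real.log_div hlx.ne' hl2.ne'] at h1
  have h4 := neg_abs_le (Real.log (Real.log 2))
  have h5 := le_abs_self (Real.log (Real.log 2))
  have h6 : 0 ≤ C / Real.log 2 := by positivity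
  push_cast
  rw [abs_le]
  constructor <;> linarith [h1.1, h1.2]

/-- reindexing `a = b * p` -/
theorem reindex {N : ℕ} {A : Finset ℕ} (hA : ∀ a ∈ A, 1 ≤ a ∧ a ≤ N) (F : ℕ → ℕ → ℝ) :
    ∑ b ∈ Icc 1 N, ∑ p ∈ PP N, (if b * p ∈ A then F b p else 0) =
      ∑ a ∈ A, ∑ p ∈ PP N, (if p ∣ a then F (a / p) p else 0) := by
  rw [← Finset.sum_product', ← Finset.sum_product', ← Finset.sum_filter, ← Finset.sum_filter]
  refine Finset.sum_nbij' (fun x => (x.1 * x.2, x.2)) (fun x => (x.1 / x.2, x.2)) ?_ ?_ ?_ ?_ ?_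
  · rintro ⟨b, p⟩ h
    simp only [mem_filter, mem_product, mem_Icc] at h ⊢
    exact ⟨⟨h.2, h.1.2⟩, dvd_mul_left _ _⟩
  · rintro ⟨a, p⟩ h
    simp only [mem_filter, mem_product, mem_Icc] at h ⊢
    obtain ⟨⟨ha, hp⟩, b, rfl⟩ := h
    have hp0 : 0 < p := hp.2.pos
    rw [Nat.mul_div_cancel_left b hp0]
    have h1 := hA _ ha
    have hb : 0 < b := Nat.pos_of_ne_zero (by rintro rfl; simp at h1)
    refine ⟨⟨⟨hb, ?_⟩, hp⟩, by rwa [mul_comm] at ha⟩
    exact (Nat.le_mul_of_pos_left b hp0).trans h1.2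
  · rintro ⟨b, p⟩ h
    simp only [mem_filter, mem_product, mem_Icc] at h ⊢
    rw [Nat.mul_div_cancel _ h.1.2.2.pos]
  · rintro ⟨a, p⟩ h
    simp only [mem_filter, mem_product, mem_Icc] at h ⊢
    rw [Nat.div_mul_cancel h.2]
  · rintro ⟨b, p⟩ h
    simp only [mem_filter, mem_product, mem_Icc] at h ⊢
    rw [Nat.mul_div_cancel _ h.1.2.2.pos]

/-- the number of pairs `(p, a)` with `p` prime, `a ∈ A` and `m = p * a` -/
noncomputable def RA (A : Finset ℕ) (m : ℕ) : ℕ :=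
  Set.ncard {x : ℕ × ℕ | x.1.Prime ∧ x.2 ∈ A ∧ m = x.1 * x.2}

/-- `A` is `r`-admissible at level `N` -/
def Adm (r N : ℕ) (A : Finset ℕ) : Prop := (∀ a ∈ A, 1 ≤ a ∧ a ≤ N) ∧ ∀ m : ℕ, RA A m ≤ r

theorem count_le {r N : ℕ} {A : Finset ℕ} (h : Adm r N A) {a q : ℕ} (ha : a ∈ A)
    (hq : q.Prime) :
    (((PP N).filter fun p => p ∣ a ∧ (a / p) * q ∈ A ∧ p ≠ q).card : ℝ) ≤ (r : ℝ) - 1 := by
  have ha0 := h.1 a ha
  have hfin : {x : ℕ × ℕ | x.1.Prime ∧ x.2 ∈ A ∧ a * q = x.1 * x.2}.Finite := by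
    refine (((Finset.range (a * q + 1)) ×ˢ A).finite_toSet).subset ?_
    rintro ⟨p, b⟩ ⟨hp, hb, hm⟩
    simp only [mem_coe, mem_product, mem_range] at *
    refine ⟨?_, hb⟩
    have hb1 := (h.1 b hb).1
    have : p ≤ a * q := by rw [hm]; exact Nat.le_mul_of_pos_right p hb1
    omega
  have h1 := h.2 (a * q)
  unfold RA at h1
  have h2 : ((insert q ((PP N).filter fun p => p ∣ a ∧ (a / p) * q ∈ A ∧ p ≠ q)).image
      (fun p => (p, a * q / p)) : Set (ℕ × ℕ)) ⊆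
      {x : ℕ × ℕ | x.1.Prime ∧ x.2 ∈ A ∧ a * q = x.1 * x.2} := by
    rintro ⟨p, b⟩ hx
    simp only [coe_image, Set.mem_image, mem_coe, mem_insert, mem_filter, Prod.mk.injEq] at hx
    obtain ⟨p', hp', rfl, rfl⟩ := hx
    rcases hp' with rfl | ⟨hp1, hp2, hp3, hp4⟩
    · refine ⟨hq, ?_, ?_⟩
      · simp only
        rwa [Nat.mul_div_cancel _ hq.pos]
      · simp only
        rw [Nat.mul_div_cancel _ hq.pos, mul_comm]
    · obtain ⟨c, rfl⟩ := hp2
      have hpp : 0 < p' := hp1.2.pos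
      rw [Nat.mul_div_cancel_left _ hpp] at hp3
      refine ⟨hp1.2, ?_, ?_⟩
      · simp only
        rwa [mul_assoc, Nat.mul_div_cancel_left _ hpp]
      · simp only
        rw [mul_assoc, Nat.mul_div_cancel_left _ hpp]
  have h3 := Set.ncard_le_ncard h2 hfin
  rw [Set.ncard_coe_finset, Finset.card_image_of_injective _ (fun x y hxy => by
    simpa using congrArg Prod.fst hxy), Finset.card_insert_of_notMem (by simp)] at h3
  have h4 : (((PP N).filter fun p => p ∣ a ∧ (a / p) * q ∈ A ∧ p ≠ q).card + 1 : ℕ) ≤ r :=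
    h3.trans h1
  have h5 : (((PP N).filter fun p => p ∣ a ∧ (a / p) * q ∈ A ∧ p ≠ q).card : ℝ) + 1 ≤ r := by
    exact_mod_cast h4
  linarith

end TH267.RS
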