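import Pool.Agent.TH267.RS.A

set_option autoImplicit false

namespace TH267.RS

open Finset
open Pool.Agent.Helper923.HMertens (PP)

/-- the harmonic sum -/
noncomputable def HH (N : ℕ) : ℝ := ∑ b ∈ Icc 1 N, (1 : ℝ) / b

/-- the number of primes up to `N` dividing `a` -/
noncomputable def om (N a : ℕ) : ℕ := ((PP N).filter fun p => p ∣ a).card

theorem tail_sq (N y : ℕ) (hy : 1 ≤ y) :
    ∑ p ∈ PP N, (if y < p then 1 / ((p : ℝ) * p) else 0) ≤ 1 / (y : ℝ) := by
  rw [← Finset.sum_filter]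
  rcases le_total y N with hyN | hyN
  · have h1 : ∑ p ∈ (PP N).filter (fun p => y < p), 1 / ((p : ℝ) * p) ≤
        ∑ i ∈ Ioc y N, (((i : ℕ) : ℝ) ^ 2)⁻¹ := by
      have e : ∀ p : ℕ, 1 / ((p : ℝ) * p) = ((p : ℝ) ^ 2)⁻¹ := fun p => by
        rw [sq, one_div]
      simp_rw [e]
      refine Finset.sum_le_sum_of_subset_of_nonneg ?_ fun _ _ _ => by positivity
      intro p hp
      simp only [mem_filter, mem_Icc, mem_Ioc] at hp ⊢
      exact ⟨hp.2, hp.1.1.2⟩
    have h2 := sum_Ioc_inv_sq_le_sub (α := ℝ) (k := y) (n := N) (by omega) hyN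
    have h3 : (0 : ℝ) ≤ (N : ℝ)⁻¹ := by positivity
    rw [one_div]
    linarith
  · have : (PP N).filter (fun p => y < p) = ∅ := by
      ext p
      simp only [mem_filter, mem_Icc, notMem_empty, iff_false, not_and]
      intro h1 h2
      omega
    rw [this, Finset.sum_empty]
    positivity

theorem card_small (N y : ℕ) : (((PP N).filter fun p => p ≤ y).card : ℝ) ≤ y := by
  have : ((PP N).filter fun p => p ≤ y).card ≤ (Icc 1 y).card := by
    refine Finset.card_le_card fun p hp => ?_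
    simp only [mem_filter, mem_Icc] at hp ⊢
    exact ⟨hp.1.1.1, hp.2⟩
  rw [Nat.card_Icc] at this
  exact_mod_cast (by omega : ((PP N).filter fun p => p ≤ y).card ≤ y)

theorem core {r N : ℕ} {A : Finset ℕ} (h : Adm r N A) (y : ℕ) (hy : 1 ≤ y) :
    (∑ a ∈ A, (om N a : ℝ) / a) ^ 2 ≤ HH N * (((r : ℝ) - 1) * (∑ a ∈ A, (1 : ℝ) / a) * LL N +
      y * (∑ a ∈ A, (1 : ℝ) / a) + HH N / y) := by
  classical
  set s : ℕ → ℝ := fun b => ∑ p ∈ PP N, (if b * p ∈ A then 1 / (p : ℝ) else 0) with hs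
  set S : ℝ := ∑ a ∈ A, (1 : ℝ) / a with hS
  have hPpos : ∀ p ∈ PP N, (0 : ℝ) < p := fun p hp => by
    exact_mod_cast (mem_filter.1 hp).2.pos
  have hApos : ∀ a ∈ A, (0 : ℝ) < a := fun a ha => by exact_mod_cast (h.1 a ha).1
  -- first moment
  have e1 : ∑ b ∈ Icc 1 N, s b / b = ∑ a ∈ A, (om N a : ℝ) / a := by
    have := reindex h.1 (fun b p => 1 / ((b : ℝ) * p))
    have l1 : ∀ b, s b / (b : ℝ) = ∑ p ∈ PP N, (if b * p ∈ A then 1 / ((b : ℝ) * p) else 0) := by
      intro b
      rw [hs, Finset.sum_div]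
      refine Finset.sum_congr rfl fun p _ => ?_
      split_ifs
      · rw [div_div, mul_comm]
      · simp
    simp_rw [l1]
    rw [this]
    refine Finset.sum_congr rfl fun a ha => ?_
    unfold om
    rw [← Finset.sum_filter, Finset.card_eq_sum_ones]
    push_cast
    rw [Finset.sum_div]
    refine Finset.sum_congr rfl fun p hp => ?_
    have hpa := (mem_filter.1 hp).2
    have hp0 := hPpos p (mem_filter.1 hp).1
    rw [Nat.cast_div hpa hp0.ne', div_mul_cancel₀ _ hp0.ne']
  -- Cauchy-Schwarz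
  have cs : (∑ b ∈ Icc 1 N, s b / b) ^ 2 ≤ (∑ b ∈ Icc 1 N, (1 : ℝ) / b) *
      ∑ b ∈ Icc 1 N, (s b) ^ 2 / b := by
    refine Finset.sum_sq_le_sum_mul_sum_of_sq_eq_mul _ (fun _ _ => by positivity)
      (fun _ _ => by positivity) fun b hb => ?_
    have : (0 : ℝ) < b := by exact_mod_cast (mem_Icc.1 hb).1
    field_simp
  -- second moment
  have e2 : ∀ b, (s b) ^ 2 / b = ∑ p ∈ PP N, (if b * p ∈ A then
      ((∑ q ∈ PP N, if b * q ∈ A ∧ p ≠ q then 1 / ((b : ℝ) * p * q) else 0) +
        1 / ((b : ℝ) * (p * p))) else 0) := by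
    intro b
    rw [hs, sq, Finset.sum_mul_sum, Finset.sum_div]
    refine Finset.sum_congr rfl fun p hp => ?_
    split_ifs with hbp
    · have l2 : (1 : ℝ) / ((b : ℝ) * (p * p)) =
          ∑ q ∈ PP N, if p = q then 1 / ((b : ℝ) * p * q) else 0 := by
        rw [Finset.sum_ite_eq, if_pos hp, mul_assoc]
      rw [l2, ← Finset.sum_add_distrib, Finset.sum_div]
      refine Finset.sum_congr rfl fun q hq => ?_
      by_cases hpq : p = q
      · subst hpq
        simp only [hbp, if_true, ne_eq, not_true_eq_false, and_false, if_false, zero_add]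
        rw [one_div_mul_one_div, div_div]
        congr 1
        ring
      · by_cases hbq : b * q ∈ A
        · simp only [hbq, if_true, ne_eq, hpq, not_false_eq_true, and_self, if_false, add_zero]
          rw [one_div_mul_one_div, div_div]
          congr 1
          ring
        · simp [hbq, hpq]
    · simp
  have e3 : ∑ b ∈ Icc 1 N, (s b) ^ 2 / b =
      (∑ b ∈ Icc 1 N, ∑ p ∈ PP N, (if b * p ∈ A then
        (∑ q ∈ PP N, if b * q ∈ A ∧ p ≠ q then 1 / ((b : ℝ) * p * q) else 0) else 0)) +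
      ∑ b ∈ Icc 1 N, ∑ p ∈ PP N, (if b * p ∈ A then 1 / ((b : ℝ) * (p * p)) else 0) := by
    rw [← Finset.sum_add_distrib]
    refine Finset.sum_congr rfl fun b _ => ?_
    rw [e2, ← Finset.sum_add_distrib]
    refine Finset.sum_congr rfl fun p _ => ?_
    split_ifs <;> simp
  -- off-diagonal part
  have off : (∑ b ∈ Icc 1 N, ∑ p ∈ PP N, (if b * p ∈ A then
        (∑ q ∈ PP N, if b * q ∈ A ∧ p ≠ q then 1 / ((b : ℝ) * p * q) else 0) else 0)) ≤
      ((r : ℝ) - 1) * S * LL N := by
    rw [reindex h.1 (fun b p => ∑ q ∈ PP N, if b * q ∈ A ∧ p ≠ q then 1 / ((b : ℝ) * p * q) else 0)]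
    have l3 : ((r : ℝ) - 1) * S * LL N = ∑ a ∈ A, ∑ q ∈ PP N, ((r : ℝ) - 1) * (1 / ((a : ℝ) * q)) := by
      rw [hS, LL, mul_assoc, Finset.sum_mul_sum, Finset.mul_sum]
      refine Finset.sum_congr rfl fun a _ => ?_
      rw [Finset.mul_sum]
      refine Finset.sum_congr rfl fun q _ => ?_
      rw [one_div_mul_one_div]
    rw [l3]
    refine Finset.sum_le_sum fun a ha => ?_
    have l4 : ∑ p ∈ PP N, (if p ∣ a then (∑ q ∈ PP N,
        if a / p * q ∈ A ∧ p ≠ q then 1 / (((a / p : ℕ) : ℝ) * p * q) else 0) else 0) =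
        ∑ q ∈ PP N, ∑ p ∈ PP N,
          (if p ∣ a ∧ a / p * q ∈ A ∧ p ≠ q then 1 / ((a : ℝ) * q) else 0) := by
      rw [Finset.sum_comm]
      refine Finset.sum_congr rfl fun p hp => ?_
      have hp0 := hPpos p hp
      by_cases hpa : p ∣ a
      · simp only [hpa, if_true, true_and]
        rw [Nat.cast_div hpa hp0.ne', div_mul_cancel₀ _ hp0.ne']
      · simp [hpa]
    rw [l4]
    refine Finset.sum_le_sum fun q hq => ?_
    rw [← Finset.sum_filter, Finset.sum_const, nsmul_eq_mul]
    have := hPpos q hq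
    have := hApos a ha
    exact mul_le_mul_of_nonneg_right (count_le h ha (mem_filter.1 hq).2) (by positivity)
  -- diagonal part
  have dia : (∑ b ∈ Icc 1 N, ∑ p ∈ PP N, (if b * p ∈ A then 1 / ((b : ℝ) * (p * p)) else 0)) ≤
      y * S + HH N / y := by
    have l5 : ∀ b ∈ Icc 1 N, ∀ p ∈ PP N,
        (if b * p ∈ A then 1 / ((b : ℝ) * (p * p)) else 0) ≤
        (if b * p ∈ A then (if p ≤ y then 1 / ((b : ℝ) * p) else 0) else 0) +
        1 / (b : ℝ) * (if y < p then 1 / ((p : ℝ) * p) else 0) := by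
      intro b hb p hp
      have hp0 := hPpos p hp
      have hb0 : (0 : ℝ) < b := by exact_mod_cast (mem_Icc.1 hb).1
      have hp1 : (1 : ℝ) ≤ p := by exact_mod_cast (mem_filter.1 hp).2.one_lt.le
      by_cases hbp : b * p ∈ A
      · simp only [hbp, if_true]
        by_cases hpy : p ≤ y
        · rw [if_pos hpy, if_neg (by omega), mul_zero, add_zero]
          apply one_div_le_one_div_of_le (by positivity)
          exact mul_le_mul_of_nonneg_left (by nlinarith) hb0.le
        · rw [if_neg hpy, if_pos (by omega), zero_add, one_div_mul_one_div]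
      · simp only [hbp, if_false, zero_add]
        positivity
    refine (Finset.sum_le_sum fun b hb => Finset.sum_le_sum fun p hp => l5 b hb p hp).trans ?_
    simp_rw [Finset.sum_add_distrib]
    refine add_le_add ?_ ?_
    · rw [reindex h.1 (fun b p => if p ≤ y then 1 / ((b : ℝ) * p) else 0), hS, Finset.mul_sum]
      refine Finset.sum_le_sum fun a ha => ?_
      have ha0 := hApos a ha
      calc ∑ p ∈ PP N, (if p ∣ a then (if p ≤ y then 1 / (((a / p : ℕ) : ℝ) * p) else 0) else 0)
          ≤ ∑ p ∈ PP N, (if p ≤ y then 1 / (a : ℝ) else 0) := by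
            refine Finset.sum_le_sum fun p hp => ?_
            have hp0 := hPpos p hp
            by_cases hpa : p ∣ a
            · rw [if_pos hpa, Nat.cast_div hpa hp0.ne', div_mul_cancel₀ _ hp0.ne']
            · rw [if_neg hpa]
              positivity
        _ = ((PP N).filter fun p => p ≤ y).card * (1 / (a : ℝ)) := by
            rw [← Finset.sum_filter, Finset.sum_const, nsmul_eq_mul]
        _ ≤ y * (1 / (a : ℝ)) := mul_le_mul_of_nonneg_right (card_small N y) (by positivity)
    · simp_rw [← Finset.mul_sum]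
      rw [← Finset.sum_mul, div_eq_mul_one_div]
      exact mul_le_mul_of_nonneg_left (tail_sq N y hy) (Finset.sum_nonneg fun _ _ => by positivity)
  have hH : 0 ≤ HH N := Finset.sum_nonneg fun _ _ => by positivity
  rw [← e1]
  refine cs.trans ?_
  rw [e3]
  change HH N * _ ≤ _
  refine mul_le_mul_of_nonneg_left ?_ hH
  linarith

end TH267.RS
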