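import Pool.Agent.TH267.RS.B

set_option autoImplicit false

namespace TH267.RS

open Finset
open Pool.Agent.Helper923.HMertens (PP)

/-- `z ^ ω(n) / n` -/
noncomputable def fz (z : ℝ) (n : ℕ) : ℝ := z ^ n.primeFactors.card / n

theorem fz_one (z : ℝ) : fz z 1 = 1 := by simp [fz]

theorem fz_mul (z : ℝ) {m n : ℕ} (h : Nat.Coprime m n) : fz z (m * n) = fz z m * fz z n := by
  unfold fz
  rw [h.primeFactors_mul, Finset.card_union_of_disjoint h.disjoint_primeFactors, pow_add]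
  push_cast
  rw [div_mul_div_comm]

theorem fz_pow (z : ℝ) {p : ℕ} (hp : p.Prime) (k : ℕ) :
    fz z (p ^ (k + 1)) = z * ((p : ℝ)⁻¹ ^ (k + 1)) := by
  unfold fz
  rw [Nat.primeFactors_prime_pow (Nat.succ_ne_zero k) hp, Finset.card_singleton, pow_one]
  push_cast
  rw [div_eq_mul_inv, inv_pow]

theorem fz_summ {z : ℝ} (hz : 0 ≤ z) {p : ℕ} (hp : p.Prime) :
    Summable (fun k : ℕ => ‖fz z (p ^ k)‖) := by
  have hp1 : (1 : ℝ) < p := by exact_mod_cast hp.one_lt
  rw [← summable_nat_add_iff 1]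
  have e : ∀ k, ‖fz z (p ^ (k + 1))‖ = z * (p : ℝ)⁻¹ * (p : ℝ)⁻¹ ^ k := by
    intro k
    rw [fz_pow z hp, Real.norm_of_nonneg (by positivity), pow_succ]
    ring
  simp_rw [e]
  exact (summable_geometric_of_lt_one (by positivity) (inv_lt_one_of_one_lt₀ hp1)).mul_left _

theorem fz_tsum {z : ℝ} (hz : 0 ≤ z) {p : ℕ} (hp : p.Prime) :
    ∑' k : ℕ, fz z (p ^ k) = 1 + z / ((p : ℝ) - 1) := by
  have hp1 : (1 : ℝ) < p := by exact_mod_cast hp.one_lt
  have hs : Summable (fun k : ℕ => fz z (p ^ k)) := (fz_summ hz hp).of_norm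
  rw [hs.tsum_eq_zero_add, pow_zero, fz_one]
  congr 1
  have e : ∀ k, fz z (p ^ (k + 1)) = z * (p : ℝ)⁻¹ * (p : ℝ)⁻¹ ^ k := by
    intro k
    rw [fz_pow z hp, pow_succ]
    ring
  simp_rw [e]
  rw [tsum_mul_left, tsum_geometric_of_lt_one (by positivity) (inv_lt_one_of_one_lt₀ hp1)]
  have h1 : (p : ℝ) ≠ 0 := by positivity
  have h2 : (p : ℝ) - 1 ≠ 0 := by linarith
  field_simp

theorem primesBelow_eq (N : ℕ) : (N + 1).primesBelow = PP N := by
  ext p
  simp only [Nat.primesBelow, mem_filter, mem_range, mem_Icc]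
  constructor
  · rintro ⟨h1, h2⟩
    exact ⟨⟨h2.one_lt.le, by omega⟩, h2⟩
  · rintro ⟨⟨h1, h2⟩, h3⟩
    exact ⟨by omega, h3⟩

theorem sum_pm1 (N : ℕ) : ∑ p ∈ PP N, 1 / ((p : ℝ) - 1) ≤ LL N + 2 := by
  have h1 := tail_sq N 1 le_rfl
  have h2 : ∑ p ∈ PP N, 1 / ((p : ℝ) - 1) ≤
      ∑ p ∈ PP N, ((1 : ℝ) / p + 2 * (if 1 < p then 1 / ((p : ℝ) * p) else 0)) := by
    refine Finset.sum_le_sum fun p hp => ?_
    have hpp := (mem_filter.1 hp).2
    rw [if_pos hpp.one_lt]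
    have hp2 : (2 : ℝ) ≤ p := by exact_mod_cast hpp.two_le
    have h3 : (0 : ℝ) < (p : ℝ) - 1 := by linarith
    rw [div_le_iff₀ h3]
    have h4 : (1 / (p : ℝ) + 2 * (1 / ((p : ℝ) * p))) * ((p : ℝ) - 1) - 1 =
        ((p : ℝ) - 2) / ((p : ℝ) * p) := by
      field_simp
      ring
    have h5 : 0 ≤ ((p : ℝ) - 2) / ((p : ℝ) * p) := div_nonneg (by linarith) (by positivity)
    linarith
  rw [Finset.sum_add_distrib, ← Finset.mul_sum] at h2
  unfold LL
  rw [Nat.cast_one, div_one] at h1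
  linarith

theorem gen_le {z : ℝ} (hz : 0 ≤ z) (N : ℕ) :
    ∑ n ∈ Icc 1 N, fz z n ≤ Real.exp (z * (LL N + 2)) := by
  classical
  have hE := EulerProduct.summable_and_hasSum_smoothNumbers_prod_primesBelow_tsum
    (f := fz z) (fz_one z) (fun h => fz_mul z h) (fun hp => fz_summ hz hp) (N + 1)
  have hnn : ∀ n, 0 ≤ fz z n := fun n => by unfold fz; positivity
  have h1 : ∑ x ∈ (Icc 1 N).subtype (fun n => n ∈ (N + 1).smoothNumbers), fz z x ≤
      ∏ p ∈ (N + 1).primesBelow, ∑' n : ℕ, fz z (p ^ n) :=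
    sum_le_hasSum _ (fun _ _ => hnn _) hE.2
  rw [Finset.sum_subtype_of_mem (fz z) (fun n hn => ?_)] at h1
  · refine h1.trans ?_
    rw [primesBelow_eq]
    calc ∏ p ∈ PP N, ∑' n : ℕ, fz z (p ^ n) = ∏ p ∈ PP N, (1 + z / ((p : ℝ) - 1)) :=
          Finset.prod_congr rfl fun p hp => fz_tsum hz (mem_filter.1 hp).2
      _ ≤ ∏ p ∈ PP N, Real.exp (z / ((p : ℝ) - 1)) := by
          refine Finset.prod_le_prod (fun p hp => ?_) fun p hp => ?_
          · have : (1 : ℝ) < p := by exact_mod_cast (mem_filter.1 hp).2.one_lt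
            have : 0 ≤ z / ((p : ℝ) - 1) := div_nonneg hz (by linarith)
            linarith
          · rw [add_comm]
            exact Real.add_one_le_exp _
      _ = Real.exp (∑ p ∈ PP N, z / ((p : ℝ) - 1)) := (Real.exp_sum _ _).symm
      _ ≤ Real.exp (z * (LL N + 2)) := by
          refine Real.exp_le_exp.2 ?_
          have : ∑ p ∈ PP N, z / ((p : ℝ) - 1) = z * ∑ p ∈ PP N, 1 / ((p : ℝ) - 1) := by
            rw [Finset.mul_sum]
            exact Finset.sum_congr rfl fun p _ => by rw [mul_one_div]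
          rw [this]
          exact mul_le_mul_of_nonneg_left (sum_pm1 N) hz
  · rw [Nat.mem_smoothNumbers]
    have h := mem_Icc.1 hn
    refine ⟨by omega, fun p hp => ?_⟩
    have := Nat.le_of_mem_primeFactorsList hp
    omega

theorem om_eq {N n : ℕ} (hn : n ∈ Icc 1 N) : om N n = n.primeFactors.card := by
  unfold om
  congr 1
  ext p
  have h := mem_Icc.1 hn
  simp only [mem_filter, mem_Icc, Nat.mem_primeFactors]
  constructor
  · rintro ⟨⟨_, h2⟩, h3⟩
    exact ⟨h2, h3, by omega⟩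
  · rintro ⟨h1, h2, h3⟩
    exact ⟨⟨⟨h1.one_lt.le, (Nat.le_of_dvd (by omega) h2).trans h.2⟩, h1⟩, h2⟩

/-- few integers have few prime factors -/
theorem lower_tail {z : ℝ} (hz : 0 < z) (hz1 : z < 1) (N : ℕ) :
    ∑ n ∈ Icc 1 N, (if (om N n : ℝ) ≤ z * LL N then (1 : ℝ) / n else 0) ≤
      Real.exp (z * (1 - Real.log z) * LL N + 2) := by
  have hlz : Real.log z < 0 := Real.log_neg hz hz1
  have h1 : ∑ n ∈ Icc 1 N, (if (om N n : ℝ) ≤ z * LL N then (1 : ℝ) / n else 0) ≤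
      ∑ n ∈ Icc 1 N, Real.exp (-(z * LL N * Real.log z)) * fz z n := by
    refine Finset.sum_le_sum fun n hn => ?_
    have hn0 : (0 : ℝ) < n := by exact_mod_cast (mem_Icc.1 hn).1
    unfold fz
    rw [← om_eq hn]
    split_ifs with h
    · have h2 : z ^ (om N n) = Real.exp ((om N n : ℝ) * Real.log z) := by
        rw [mul_comm, Real.exp_mul, Real.exp_log hz, Real.rpow_natCast]
      rw [h2, mul_div_assoc', ← Real.exp_add]
      refine div_le_div_of_nonneg_right ?_ hn0.le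
      refine Real.one_le_exp ?_
      nlinarith
    · positivity
  rw [← Finset.mul_sum] at h1
  refine h1.trans ?_
  refine (mul_le_mul_of_nonneg_left (gen_le hz.le N) (Real.exp_pos _).le).trans ?_
  rw [← Real.exp_add]
  refine Real.exp_le_exp.2 ?_
  nlinarith

end TH267.RS
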