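import Pool.Agent.TH267.RS.C

set_option autoImplicit false

namespace TH267.RS

open Finset Filter Topology
open Pool.Agent.Helper923.HMertens (PP)

theorem HH_le (N : ℕ) : HH N ≤ 1 + Real.log N := by
  have h := harmonic_le_one_add_log N
  rw [harmonic_eq_sum_Icc] at h
  push_cast at h
  unfold HH
  simpa only [one_div] using h

theorem main_ineq {r N : ℕ} (hr : 2 ≤ r) {A : Finset ℕ} (h : Adm r N A) {z : ℝ} (hz : 0 < z)
    (hz1 : z < 1) (y : ℕ) (hy : 1 ≤ y) (hL : 0 < LL N) :
    ∑ a ∈ A, (1 : ℝ) / a ≤ 2 * Real.exp (z * (1 - Real.log z) * LL N + 2) +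
      (1 + Real.log N) * (((r : ℝ) - 1) + y / LL N + 1 / y) / (z ^ 2 * LL N) := by
  set S : ℝ := ∑ a ∈ A, (1 : ℝ) / a with hS
  set L : ℝ := LL N with hLd
  set t : ℝ := Real.exp (z * (1 - Real.log z) * L + 2) with ht
  set w : ℝ := 1 + Real.log N with hw
  have hr' : (2 : ℝ) ≤ r := by exact_mod_cast hr
  have hy' : (1 : ℝ) ≤ y := by exact_mod_cast hy
  have hlogN : 0 ≤ Real.log N := Real.log_natCast_nonneg N
  have hw0 : 0 < w := by linarith
  have ht0 : 0 < t := Real.exp_pos _
  have hS0 : 0 ≤ S := Finset.sum_nonneg fun _ _ => by positivity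
  have hHw : HH N ≤ w := HH_le N
  have hH0 : 0 ≤ HH N := Finset.sum_nonneg fun _ _ => by positivity
  have hterm : 0 ≤ w * (((r : ℝ) - 1) + y / L + 1 / y) / (z ^ 2 * L) := by
    have : 0 ≤ ((r : ℝ) - 1) + y / L + 1 / y := by
      have h1 : 0 ≤ (y : ℝ) / L := by positivity
      have h2 : 0 ≤ 1 / (y : ℝ) := by positivity
      linarith
    positivity
  have hT : ∑ a ∈ A, (if (om N a : ℝ) ≤ z * L then (1 : ℝ) / a else 0) ≤ t := by
    refine le_trans ?_ (lower_tail hz hz1 N)
    refine Finset.sum_le_sum_of_subset_of_nonneg (fun a ha => ?_) fun _ _ _ => ?_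
    · exact mem_Icc.2 (h.1 a ha)
    · split_ifs <;> positivity
  have hW : z * L * (S - t) ≤ ∑ a ∈ A, (om N a : ℝ) / a := by
    have h1 : z * L * (S - ∑ a ∈ A, (if (om N a : ℝ) ≤ z * L then (1 : ℝ) / a else 0)) ≤
        ∑ a ∈ A, (om N a : ℝ) / a := by
      rw [hS, ← Finset.sum_sub_distrib, Finset.mul_sum]
      refine Finset.sum_le_sum fun a ha => ?_
      split_ifs with h2
      · rw [sub_self, mul_zero]
        positivity
      · push Not at h2
        rw [sub_zero, mul_one_div]
        exact div_le_div_of_nonneg_right h2.le (by positivity)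
    have h2 : z * L * (S - t) ≤
        z * L * (S - ∑ a ∈ A, (if (om N a : ℝ) ≤ z * L then (1 : ℝ) / a else 0)) :=
      mul_le_mul_of_nonneg_left (by linarith) (by positivity)
    exact h2.trans h1
  have hc := core h y hy
  rw [← hS, ← hLd] at hc
  rcases le_or_gt S (2 * t) with hSt | hSt
  · linarith
  rcases le_or_gt (S * L) w with hSL | hSL
  · have h1 : S ≤ w / L := (le_div_iff₀ hL).2 hSL
    have h2 : w / L ≤ w * (((r : ℝ) - 1) + y / L + 1 / y) / (z ^ 2 * L) := by
      rw [div_le_div_iff₀ hL (by positivity)]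
      have h3 : z ^ 2 ≤ ((r : ℝ) - 1) + y / L + 1 / y := by
        have h4 : 0 ≤ (y : ℝ) / L := by positivity
        have h5 : 0 ≤ 1 / (y : ℝ) := by positivity
        nlinarith
      have h6 : w * L * z ^ 2 ≤ w * L * (((r : ℝ) - 1) + y / L + 1 / y) :=
        mul_le_mul_of_nonneg_left h3 (by positivity)
      nlinarith
    linarith
  · have hSpos : 0 < S := by linarith
    have h1 : (z * L * (S - t)) ^ 2 ≤ (∑ a ∈ A, (om N a : ℝ) / a) ^ 2 :=
      pow_le_pow_left₀ (mul_nonneg (by positivity) (by linarith)) hW 2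
    have h2 : HH N * (((r : ℝ) - 1) * S * L + y * S + HH N / y) ≤
        w * (((r : ℝ) - 1) * S * L + y * S + w / y) := by
      have h3 : HH N / y ≤ w / y := div_le_div_of_nonneg_right hHw (by positivity)
      have h4 : 0 ≤ ((r : ℝ) - 1) * S * L := mul_nonneg (mul_nonneg (by linarith) hS0) hL.le
      have h5 : 0 ≤ (y : ℝ) * S := by positivity
      have h6 : 0 ≤ w / y := by positivity
      exact mul_le_mul hHw (by linarith) (by positivity) hw0.le
    have h3 : w / y ≤ S * L / y := div_le_div_of_nonneg_right hSL.le (by positivity)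
    have h4 : w * (((r : ℝ) - 1) * S * L + y * S + w / y) ≤
        w * (((r : ℝ) - 1) * S * L + y * S + S * L / y) :=
      mul_le_mul_of_nonneg_left (by linarith) hw0.le
    have h5 : z ^ 2 * L ^ 2 * (S * (S - 2 * t)) ≤ (z * L * (S - t)) ^ 2 := by
      have : 0 ≤ z ^ 2 * L ^ 2 * t ^ 2 := by positivity
      nlinarith
    have h6 : z ^ 2 * L ^ 2 * (S * (S - 2 * t)) ≤
        w * (((r : ℝ) - 1) * S * L + y * S + S * L / y) := by linarith
    have h7 : S * (z ^ 2 * L ^ 2 * (S - 2 * t)) ≤
        S * (w * (((r : ℝ) - 1) * L + y + L / y)) := by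
      have e1 : S * (z ^ 2 * L ^ 2 * (S - 2 * t)) = z ^ 2 * L ^ 2 * (S * (S - 2 * t)) := by ring
      have e2 : S * (w * (((r : ℝ) - 1) * L + y + L / y)) =
          w * (((r : ℝ) - 1) * S * L + y * S + S * L / y) := by ring
      rw [e1, e2]
      exact h6
    have h8 := le_of_mul_le_mul_left h7 hSpos
    have h9 : S - 2 * t ≤ w * (((r : ℝ) - 1) + y / L + 1 / y) / (z ^ 2 * L) := by
      rw [le_div_iff₀ (by positivity)]
      have e3 : (S - 2 * t) * (z ^ 2 * L) * L = z ^ 2 * L ^ 2 * (S - 2 * t) := by ring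
      have e4 : w * (((r : ℝ) - 1) + y / L + 1 / y) * L =
          w * (((r : ℝ) - 1) * L + y + L / y) := by
        field_simp
      have h10 : (S - 2 * t) * (z ^ 2 * L) * L ≤ w * (((r : ℝ) - 1) + y / L + 1 / y) * L := by
        rw [e3, e4]
        exact h8
      exact le_of_mul_le_mul_right h10 hL
    linarith

theorem upper (r : ℕ) (hr : 2 ≤ r) (η : ℝ) (hη : 0 < η) :
    ∀ᶠ N : ℕ in atTop, ∀ A : Finset ℕ, Adm r N A →
      ∑ a ∈ A, (1 : ℝ) / a ≤ ((r : ℝ) - 1 + η) * (Real.log N / Real.log (Real.log N)) := by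
  obtain ⟨C, hC0, hC⟩ := LL_mertens
  have hr' : (2 : ℝ) ≤ r := by exact_mod_cast hr
  set ρ : ℝ := (r : ℝ) - 1 with hρ
  have hρ1 : 1 ≤ ρ := by linarith
  obtain ⟨y, hy⟩ := exists_nat_gt (4 / η)
  have hy0 : (0 : ℝ) < y := lt_trans (by positivity) hy
  have hy1 : 1 ≤ y := by exact_mod_cast hy0
  have hyη : 1 / (y : ℝ) ≤ η / 4 := by
    rw [div_le_iff₀ hy0]
    rw [div_lt_iff₀ hη] at hy
    linarith
  set z : ℝ := Real.sqrt ((ρ + η / 4) / (ρ + η / 2)) with hz
  have hq0 : 0 < (ρ + η / 4) / (ρ + η / 2) := by positivity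
  have hz0 : 0 < z := Real.sqrt_pos.2 hq0
  have hz2 : z ^ 2 = (ρ + η / 4) / (ρ + η / 2) := Real.sq_sqrt hq0.le
  have hz1 : z < 1 := by
    rw [hz, Real.sqrt_lt' one_pos, one_pow, div_lt_one (by positivity)]
    linarith
  set κ : ℝ := z * (1 - Real.log z) with hκ
  have hκ1 : κ < 1 := by
    have h1 := Real.log_lt_sub_one_of_pos (inv_pos.2 hz0) (by
      intro h
      rw [inv_eq_one] at h
      linarith)
    rw [Real.log_inv] at h1
    have h2 : z * (1 - Real.log z) < z * z⁻¹ := mul_lt_mul_of_pos_left (by linarith) hz0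
    rwa [mul_inv_cancel₀ hz0.ne'] at h2
  have hκ0 : 0 ≤ κ := by
    have := Real.log_neg hz0 hz1
    exact mul_nonneg hz0.le (by linarith)
  -- limits
  have lN : Tendsto (fun N : ℕ => Real.log (N : ℝ)) atTop atTop :=
    Real.tendsto_log_atTop.comp tendsto_natCast_atTop_atTop
  have lu : Tendsto (fun N : ℕ => Real.log (Real.log (N : ℝ))) atTop atTop :=
    Real.tendsto_log_atTop.comp lN
  have lLu : Tendsto (fun N : ℕ => LL N / Real.log (Real.log (N : ℝ))) atTop (𝓝 1) := by
    have h1 : Tendsto (fun N : ℕ => C / Real.log (Real.log (N : ℝ))) atTop (𝓝 0) :=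
      tendsto_const_nhds.div_atTop lu
    have h2 : Tendsto (fun N : ℕ => LL N / Real.log (Real.log (N : ℝ)) - 1) atTop (𝓝 0) := by
      refine squeeze_zero_norm' ?_ h1
      filter_upwards [eventually_ge_atTop 2, lu.eventually_gt_atTop 0] with N hN hu
      have h3 := hC N hN
      have e : LL N / Real.log (Real.log (N : ℝ)) - 1 =
          (LL N - Real.log (Real.log N)) / Real.log (Real.log (N : ℝ)) := by
        field_simp
      rw [e, norm_div, Real.norm_eq_abs, Real.norm_of_nonneg hu.le]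
      exact div_le_div_of_nonneg_right h3 hu.le
    have h3 := h2.add_const 1
    simpa using h3
  have luL : Tendsto (fun N : ℕ => Real.log (Real.log (N : ℝ)) / LL N) atTop (𝓝 1) := by
    have h1 := lLu.inv₀ one_ne_zero
    rw [inv_one] at h1
    refine h1.congr fun N => ?_
    rw [inv_div]
  have lL : Tendsto (fun N : ℕ => LL N) atTop atTop := by
    refine tendsto_atTop_mono' _ ?_ (tendsto_atTop_add_const_right _ (-C) lu)
    filter_upwards [eventually_ge_atTop 2] with N hN
    have := (abs_le.1 (hC N hN)).1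
    linarith
  have ly : Tendsto (fun N : ℕ => (y : ℝ) / LL N) atTop (𝓝 0) := tendsto_const_nhds.div_atTop lL
  have lw : Tendsto (fun N : ℕ => (1 + Real.log (N : ℝ)) / Real.log N) atTop (𝓝 1) := by
    have h1 : Tendsto (fun N : ℕ => 1 / Real.log (N : ℝ)) atTop (𝓝 0) :=
      tendsto_const_nhds.div_atTop lN
    have h2 := h1.add_const 1
    rw [zero_add] at h2
    refine h2.congr' ?_
    filter_upwards [lN.eventually_gt_atTop 0] with N hN
    field_simp
  have lt : Tendsto (fun N : ℕ => 2 * Real.exp (κ * LL N + 2) *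
      (Real.log (Real.log N) / Real.log N)) atTop (𝓝 0) := by
    have h1 : Tendsto (fun u : ℝ => u * Real.exp (-((1 - κ) * u))) atTop (𝓝 0) := by
      have h2 := Real.tendsto_pow_mul_exp_neg_atTop_nhds_zero 1
      have h3 : Tendsto (fun u : ℝ => (1 - κ) * u) atTop atTop :=
        tendsto_id.const_mul_atTop (by linarith)
      have h4 := (h2.comp h3).const_mul (1 / (1 - κ))
      rw [mul_zero] at h4
      refine h4.congr fun u => ?_
      have : 1 - κ ≠ 0 := by linarith
      simp only [Function.comp, pow_one]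
      field_simp
    have h5 := (h1.comp lu).const_mul (2 * Real.exp (κ * C + 2))
    rw [mul_zero] at h5
    refine squeeze_zero' ?_ ?_ h5
    · filter_upwards [lu.eventually_ge_atTop 0, lN.eventually_ge_atTop 0] with N h1 h2
      positivity
    · filter_upwards [eventually_ge_atTop 2, lu.eventually_ge_atTop 0,
        lN.eventually_gt_atTop 0] with N hN hu hl
      have h6 := (abs_le.1 (hC N hN)).2
      have h7 : Real.exp (κ * LL N + 2) ≤
          Real.exp (κ * C + 2) * Real.exp (κ * Real.log (Real.log N)) := by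
        rw [← Real.exp_add]
        refine Real.exp_le_exp.2 ?_
        have : κ * LL N ≤ κ * (Real.log (Real.log N) + C) :=
          mul_le_mul_of_nonneg_left (by linarith) hκ0
        linarith
      have h8 : Real.exp (-((1 - κ) * Real.log (Real.log N))) =
          Real.exp (κ * Real.log (Real.log N)) / Real.log N := by
        have e : -((1 - κ) * Real.log (Real.log N)) =
            κ * Real.log (Real.log N) - Real.log (Real.log N) := by ring
        rw [e, Real.exp_sub, Real.exp_log hl]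
      simp only [Function.comp]
      rw [h8]
      have h9 : 2 * Real.exp (κ * LL N + 2) * (Real.log (Real.log N) / Real.log N) ≤
          2 * (Real.exp (κ * C + 2) * Real.exp (κ * Real.log (Real.log N))) *
            (Real.log (Real.log N) / Real.log N) :=
        mul_le_mul_of_nonneg_right (by linarith) (by positivity)
      refine h9.trans (le_of_eq ?_)
      ring
  have ltot : Tendsto (fun N : ℕ => 2 * Real.exp (κ * LL N + 2) *
      (Real.log (Real.log N) / Real.log N) +
      ((1 + Real.log (N : ℝ)) / Real.log N) * (Real.log (Real.log (N : ℝ)) / LL N) *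
        ((ρ + y / LL N + 1 / y) / z ^ 2)) atTop (𝓝 (0 + 1 * 1 * ((ρ + 0 + 1 / y) / z ^ 2))) :=
    lt.add ((lw.mul luL).mul (((tendsto_const_nhds.add ly).add tendsto_const_nhds).div_const _))
  have hlim : 0 + 1 * 1 * ((ρ + 0 + 1 / (y : ℝ)) / z ^ 2) < ρ + η := by
    have h1 : (ρ + 0 + 1 / (y : ℝ)) / z ^ 2 ≤ (ρ + η / 4) / z ^ 2 :=
      div_le_div_of_nonneg_right (by linarith) (by positivity)
    have h2 : (ρ + η / 4) / z ^ 2 = ρ + η / 2 := by
      rw [hz2]
      field_simp
    linarith
  filter_upwards [ltot.eventually_lt_const hlim, eventually_ge_atTop 2,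
    lu.eventually_gt_atTop 0, lN.eventually_gt_atTop 0, lL.eventually_gt_atTop 0]
    with N hN h2 hu hl hL A hA
  have hmain := main_ineq hr hA hz0 hz1 y hy1 hL
  have e1 : (2 * Real.exp (κ * LL N + 2) +
      (1 + Real.log N) * (ρ + y / LL N + 1 / y) / (z ^ 2 * LL N)) *
      (Real.log (Real.log N) / Real.log N) = 2 * Real.exp (κ * LL N + 2) *
      (Real.log (Real.log N) / Real.log N) +
      ((1 + Real.log (N : ℝ)) / Real.log N) * (Real.log (Real.log (N : ℝ)) / LL N) *
        ((ρ + y / LL N + 1 / y) / z ^ 2) := by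
    field_simp
  have h3 : (∑ a ∈ A, (1 : ℝ) / a) * (Real.log (Real.log N) / Real.log N) ≤ ρ + η := by
    refine (mul_le_mul_of_nonneg_right hmain (by positivity)).trans ?_
    rw [e1]
    exact hN.le
  have h4 : 0 < Real.log (Real.log N) / Real.log (N : ℝ) := by positivity
  have h5 := (le_div_iff₀ h4).2 h3
  refine h5.trans (le_of_eq ?_)
  rw [div_div_eq_mul_div, mul_div_assoc]

end TH267.RS
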